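import Pool.Agent.Helper38.FY.Goals

/-!
# The density theorem for all characters (MP_fc6b1e_nt), packet N_DCP
-/

set_option autoImplicit false

namespace Pool.Agent.Helper96.FY

open NumberField Module Pool.Agent.Helper38.FD

/-- The primes which divide the degree of the field cut out by a character of exponent `e`. -/
theorem dvd_of_dvd_finrank {K Ω k : Type} [Field K] [Field Ω] [Algebra K Ω] [NormedField k]
    [IsGalois K Ω] {φ : Chr K Ω k} {E : IntermediateField K Ω} [FiniteDimensional K E]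
    (h : CutsOut φ E) {e : ℕ} (he : ∀ g : Ω ≃ₐ[K] Ω, φ g ^ e = 1) {q : ℕ} (hq : q.Prime)
    (hd : q ∣ finrank K E) : q ∣ e := by
  have i := isGalois_of_cutsOut h
  have hqf : Fact q.Prime := ⟨hq⟩
  obtain ⟨χ', hinj, h'⟩ := exists_faithful h
  rw [← IsGalois.card_aut_eq_finrank K E] at hd
  obtain ⟨a, ha⟩ := exists_prime_orderOf_dvd_card' q hd
  obtain ⟨g, hg⟩ := exists_lift (H := E) a
  have h1 : χ' (a ^ e) = χ' 1 := by
    rw [map_pow, ← h' g a hg, he, map_one]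
  rw [← ha]
  exact orderOf_dvd_of_pow_eq_one (hinj h1)

theorem n_dcp : Pool.Agent.Helper38.FY.N_DCP := by
  intro p hpf K _ _ κ H hH hκ
  have hp : p.Prime := hpf.out
  have hn0 : finrank K H ≠ 0 := (finrank_pos (R := K) (M := H)).ne'
  obtain ⟨l, m, hpm, hn⟩ := Nat.exists_eq_pow_mul_and_not_dvd hn0 p hp.ne_one
  have hco : m.Coprime (p ^ l) :=
    Nat.Coprime.pow_right l (Nat.coprime_comm.1 ((Nat.Prime.coprime_iff_not_dvd hp).2 hpm))
  obtain ⟨u, hu1, hu2⟩ := Nat.chineseRemainder hco 1 0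
  obtain ⟨v, hv1, hv2⟩ := Nat.chineseRemainder hco 0 1
  have hpow : ∀ g, κ g ^ (m * p ^ l) = 1 := by
    intro g
    have h1 := pow_card_desc hκ g
    rwa [hn, mul_comm] at h1
  have huv : u + v ≡ 1 [MOD m * p ^ l] := by
    rw [← Nat.modEq_and_modEq_iff_modEq_mul hco]
    exact ⟨by simpa using hu1.add hv1, by simpa using hu2.add hv2⟩
  have hum : ∀ g, (κ ^ u) g ^ m = 1 := by
    intro g
    obtain ⟨c, hc⟩ := (Nat.modEq_zero_iff_dvd.1 hu2)
    have h1 : (κ ^ u) g = κ g ^ u := rfl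
    rw [h1, ← pow_mul, hc]
    have h2 : p ^ l * c * m = m * p ^ l * c := by ring
    rw [h2, pow_mul, hpow, one_pow]
  have hvp : ∀ g, (κ ^ v) g ^ p ^ l = 1 := by
    intro g
    obtain ⟨c, hc⟩ := (Nat.modEq_zero_iff_dvd.1 hv1)
    have h1 : (κ ^ v) g = κ g ^ v := rfl
    rw [h1, ← pow_mul, hc]
    have h2 : m * c * p ^ l = m * p ^ l * c := by ring
    rw [h2, pow_mul, hpow, one_pow]
  have hker : ∀ (w : ℕ) (g : AlgebraicClosure K ≃ₐ[K] AlgebraicClosure K),
      (∀ x ∈ H, g x = x) → (κ ^ w) g = 1 := by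
    intro w g hg
    have h1 : (κ ^ w) g = κ g ^ w := rfl
    rw [h1, (hκ g).2 hg, one_pow]
  obtain ⟨M, hM, hχ⟩ := exists_cutsOut (κ ^ u) H (hker u)
  obtain ⟨F, hF, hψ⟩ := exists_cutsOut (κ ^ v) H (hker v)
  have hFp : finrank K F = p ^ (finrank K F).primeFactorsList.length := by
    refine Nat.eq_prime_pow_of_unique_prime_dvd (finrank_pos (R := K) (M := F)).ne' ?_
    intro d hd hdF
    exact (Nat.prime_dvd_prime_iff_eq hd hp).1
      (hd.dvd_of_dvd_pow (dvd_of_dvd_finrank hψ hvp hd hdF))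
  refine ⟨κ ^ u, κ ^ v, M, F, _, ?_, hM, hχ, ?_, hψ, hFp⟩
  · refine MonoidHom.ext fun g => ?_
    have h1 : (κ ^ u * κ ^ v) g = κ g ^ (u + v) := (pow_add (κ g) u v).symm
    have h2 : κ g ^ (u + v) = κ g ^ 1 := by
      rw [pow_eq_pow_iff_modEq]
      exact huv.of_dvd (orderOf_dvd_of_pow_eq_one (hpow g))
    rw [h1, h2, pow_one]
  · rw [Nat.coprime_comm, Nat.Prime.coprime_iff_not_dvd hp]
    intro h
    exact hpm (dvd_of_dvd_finrank hχ hum hp h)

end Pool.Agent.Helper96.FY
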